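import Pool.Agent.Lib.MP_3b0e0c_al.V.Seven

/-! Conjugate pairs of class at most nine. -/

namespace Pool.Agent.Lib.MP_3b0e0c_al.V

open Subgroup S U
open scoped commutatorElement

variable {G : Type*} [Group G]

/-- The root trick with a square root. -/
theorem LF_root3 {r s : G} (hs : s = r ^ 2) (s2 : s * s = 1)
    (h1 : ∀ g : G, Commute ⁅s, g * s * g⁻¹⁆ r)
    (h2 : ∀ g : G, Commute (g * s * g⁻¹) (r * (g * s * g⁻¹) * r⁻¹)) : LF (normalClosure {s}) := by
  have s1 : s⁻¹ = s := inv_eq_of_mul_eq_one_right s2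
  have sq : ∀ g : G, g * s * g⁻¹ * (g * s * g⁻¹) = 1 := fun g => by rw [conj_mul, s2]; simp
  have i1 : ∀ g : G, (g * s * g⁻¹)⁻¹ = g * s * g⁻¹ := fun g => inv_eq_of_mul_eq_one_right (sq g)
  have e0 : ∀ g : G, ⁅s, g * s * g⁻¹⁆ = s * (g * s * g⁻¹ * s * (g * s * g⁻¹)) := fun g => by
    rw [commutatorElement_def, s1, i1]; simp only [mul_assoc]
  have a3 : ∀ g : G, Commute s (g * s * g⁻¹ * s * (g * s * g⁻¹)) := fun g => by
    have e1 := (h1 g).pow_right 2
    rw [← hs] at e1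
    have := (Commute.refl s).mul_right e1.symm
    rwa [e0, ← mul_assoc, s2, one_mul] at this
  have a1 : ∀ g k : G, Commute s k → Commute ⁅s, g * s * g⁻¹⁆ (k * r * k⁻¹) := fun g k hk => by
    have := (h1 (k⁻¹ * g)).conj k
    rwa [conjugate_commutatorElement, cf hk,
      show k * (k⁻¹ * g * s * (k⁻¹ * g)⁻¹) * k⁻¹ = g * s * g⁻¹ by group] at this
  refine LF_strong s2 a3 fun g k => ?_
  have b0 := h1 k
  have b1 := h2 k
  have b3 := a3 k
  have w1 := i1 k
  have w2 := sq k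
  have c0 := h1 g
  have c1 := a1 g
  rw [e0] at b0 c0 c1
  generalize k * s * k⁻¹ = w at b0 b1 b3 w1 w2 ⊢
  generalize g * s * g⁻¹ * s * (g * s * g⁻¹) = v at c0 c1 ⊢
  obtain ⟨y, hy⟩ : ∃ y, y = w * r * w⁻¹ := ⟨_, rfl⟩
  have y2 : y ^ 2 = w * s * w := by rw [hy, conj_pow, ← hs, w1]
  have d1 : Commute s y := by
    have e1 := b0.conj w
    rw [← hy, b3.eq, w1, show w * (w * s * w * s) * w = s * (w * s * w) by
      simp only [← mul_assoc, w2, one_mul]] at e1
    have := e1.mul_left (y2 ▸ (Commute.refl y).pow_left 2)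
    rwa [show s * (w * s * w) * (w * s * w) = s by
      simp only [← mul_assoc, mul_sq w2, mul_sq s2]] at this
  have d2 : r * y⁻¹ * (r * y⁻¹) = 1 := by
    have e1 : r * y⁻¹ = r * w * r⁻¹ * w := by rw [hy, mul_inv_rev, mul_inv_rev, inv_inv, w1]; group
    have e2 : r * w * r⁻¹ * (r * w * r⁻¹) = 1 := by rw [conj_mul, w2]; simp
    rw [e1]
    generalize r * w * r⁻¹ = p at b1 e2
    rw [mul_assoc, ← mul_assoc w, b1.eq]
    simp only [← mul_assoc, e2, one_mul, w2]
  have d3 : w * s * w = r * (y⁻¹ * r * y⁻¹⁻¹) := by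
    rw [← y2, ← one_mul (y ^ 2), ← d2]; group
  have d4 : Commute (s * v) (w * s * w) := d3 ▸ c0.mul_right (c1 _ d1.inv_right)
  simpa only [← mul_assoc s, s2, one_mul] using b3.mul_left d4

lemma sq_comm (h9 : Γ G 9 = ⊥) {p q : G} {n : ℕ} (ht : ⁅p ^ n, q ^ n⁆ ∈ Γ G 7)
    (hp : p ^ n * p ^ n = 1) (hq : q ^ n * q ^ n = 1) : Commute ⁅p ^ n, q ^ n⁆ (p ^ 2) := by
  have x3 : p ^ n * ⁅p ^ n, q ^ n⁆ * (p ^ n)⁻¹ = ⁅p ^ n, q ^ n⁆⁻¹ := by
    rw [commutatorElement_inv, commutatorElement_def, commutatorElement_def,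
      inv_eq_of_mul_eq_one_right hp, inv_eq_of_mul_eq_one_right hq]
    simp only [← mul_assoc, hp, one_mul]
  generalize ⁅p ^ n, q ^ n⁆ = t at ht x3 ⊢
  obtain ⟨c, hc⟩ : ∃ c, c = ⁅p, t⁆ := ⟨_, rfl⟩
  have c0 : ∀ z, Commute c z := fun z =>
    fc (triv h9 (hc ▸ comm_mem (mem_zero p) ht le_rfl) (mem_zero z) le_rfl)
  have x1 : p * t * p⁻¹ = c * t := by rw [hc, commutatorElement_def]; group
  have x2 : ∀ m : ℕ, p ^ m * t * (p ^ m)⁻¹ = c ^ m * t := fun m => by
    induction m with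
    | zero => simp
    | succ m ih =>
      rw [show p ^ (m + 1) * t * (p ^ (m + 1))⁻¹ = p * (p ^ m * t * (p ^ m)⁻¹) * p⁻¹ by group, ih,
        cc ((c0 p).pow_left m), x1, pow_succ, mul_assoc]
  have x4 : c ^ n * (t * t) = 1 := by rw [← mul_assoc, ← x2, x3, inv_mul_cancel]
  have e1 : p * (c ^ n * (t * t)) * p⁻¹ = 1 := by rw [x4]; simp
  rw [cc ((c0 p).pow_left n), ← conj_mul, x1, show c * t * (c * t) = c * (t * c) * t by
    simp only [mul_assoc], ← (c0 t).eq, show c ^ n * (c * (c * t) * t) = c ^ 2 * (c ^ n * (t * t)) by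
    group, x4, mul_one] at e1
  exact fc (by rw [x2, e1, one_mul])

lemma deep7 {p q : G} {n : ℕ} (hc : (closure {QuotientGroup.mk' (Γ G 7) p,
      QuotientGroup.mk' (Γ G 7) q}).lowerCentralSeries 7 = ⊥ →
      Commute (QuotientGroup.mk' (Γ G 7) p ^ n) (QuotientGroup.mk' (Γ G 7) q ^ n)) :
    ⁅p ^ n, q ^ n⁆ ∈ Γ G 7 := by
  have h1 := hc (by
    rw [← Set.image_pair, ← MonoidHom.map_closure, ← map_lowerCentralSeries,
      Subgroup.map_eq_bot_iff, QuotientGroup.ker_mk']
    exact lowerCentralSeries_mono 7 le_top)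
  rw [← map_pow, ← map_pow, ← commutatorElement_eq_one_iff_commute, ← map_commutatorElement] at h1
  exact (QuotientGroup.eq_one_iff _).1 h1

lemma toK {K : Subgroup G} (h : K.lowerCentralSeries 9 = ⊥) : Γ K 9 = ⊥ := by
  rw [← map_eq_bot_iff_of_injective _ K.subtype_injective, map_lowerCentralSeries,
    ← MonoidHom.range_eq_map, subtype_range, h]

theorem LF_of_conj9 (h2 : IsPGroup 2 G)
    (h : ∀ x g : G, (closure {x, g * x * g⁻¹}).lowerCentralSeries 9 = ⊥) :
    LF (⊤ : Subgroup G) := by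
  have hq := h2.to_quotient (rad G)
  have h9 : ∀ x g : G ⧸ rad G, (closure {x, g * x * g⁻¹}).lowerCentralSeries 9 = ⊥ := by
    intro x g
    obtain ⟨x, rfl⟩ := QuotientGroup.mk'_surjective _ x
    obtain ⟨g, rfl⟩ := QuotientGroup.mk'_surjective _ g
    have := congrArg (Subgroup.map (QuotientGroup.mk' (rad G))) (h x g)
    rwa [Subgroup.map_lowerCentralSeries, MonoidHom.map_closure, Set.image_pair, map_mul, map_mul,
      map_inv, Subgroup.map_bot] at this
  have el : ∀ x g : G ⧸ rad G, ∃ a b : closure {x, g * x * g⁻¹}, (a : G ⧸ rad G) = x ∧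
      (b : G ⧸ rad G) = g * x * g⁻¹ := fun x g =>
    ⟨⟨_, subset_closure (by simp)⟩, ⟨_, subset_closure (by simp)⟩, rfl, rfl⟩
  have e8 : ∀ u : G ⧸ rad G, u ^ 8 = 1 := fun u => by
    obtain ⟨k, hk⟩ := hq u
    refine descend (c := 8) (fun j e => ?_) hk
    rw [mul_comm, pow_mul]
    have e1 : (u ^ j) ^ 16 = 1 := by rw [← e, ← pow_mul]; congr 1; ring
    generalize u ^ j = z at e1
    have e2 : (z ^ 2) ^ 4 = z ^ 8 := by rw [← pow_mul]
    rw [← e2]
    refine quot_triv (LF_root (by rw [← pow_mul, e1]) fun g => ?_) (subset_normalClosure rfl)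
    obtain ⟨a, b, ha, hb⟩ := el z g
    have a1 : a ^ 16 = 1 := Subtype.ext (by rw [coe_pow, ha, e1]; rfl)
    have b1 : b ^ 16 = 1 := Subtype.ext (by rw [coe_pow, hb, conj_pow, e1]; simp)
    have := (sq_comm (toK (h9 z g)) (p := a) (q := b) (n := 8) (deep7 fun h7 =>
      commA ((hq.to_subgroup _).to_quotient _) h7 (by rw [← map_pow, a1, map_one])
        (by rw [← map_pow, b1, map_one])) (by rw [← pow_add, a1]) (by rw [← pow_add, b1])).map
      (Subgroup.subtype _)
    simp only [map_commutatorElement, map_pow, coe_subtype, ha, hb] at this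
    rwa [e2, ← conj_pow]
  have e4 : ∀ u : G ⧸ rad G, u ^ 4 = 1 := fun u => by
    refine quot_triv (LF_root3 (r := u ^ 2) (by rw [← pow_mul]) (by rw [← pow_add, e8])
      (fun g => ?_) fun g => ?_) (subset_normalClosure rfl)
    all_goals
      obtain ⟨a, b, ha, hb⟩ := el u g
      have k8 : ∀ v : closure {u, g * u * g⁻¹}, v ^ 8 = 1 := fun v => Subtype.ext (e8 _)
    · have := (sq_comm (toK (h9 u g)) (p := a) (q := b) (n := 4) (deep7 fun h7 => commB h7 fun v => by
        obtain ⟨v, rfl⟩ := QuotientGroup.mk'_surjective _ v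
        rw [← map_pow, k8, map_one]) (by rw [← pow_add, k8]) (by rw [← pow_add, k8])).map
        (Subgroup.subtype _)
      simp only [map_commutatorElement, map_pow, coe_subtype, ha, hb] at this
      rwa [← conj_pow]
    · have := (commB (seven (toK (h9 u g)) k8 a b) k8).map (Subgroup.subtype _)
      simp only [map_mul, map_inv, map_pow, coe_subtype, ha, hb] at this
      rwa [conj_pow, conj_pow, conj_pow] at this
  have hk : LF (QuotientGroup.mk' (rad G)).ker := by rw [QuotientGroup.ker_mk']; exact LF_rad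
  have := LF.comap _ hk (sanov e4)
  rwa [comap_top] at this

/-- Two-generator subgroups of class at most ten. -/
theorem nine_of_ten (h : ∀ x g : G, (closure {x, g}).lowerCentralSeries 10 = ⊥)
    (x g : G) : (closure {x, g * x * g⁻¹}).lowerCentralSeries 9 = ⊥ := conj_class' (h x g)

/-- Conjugate pairs of class at most eight. -/
theorem nine_of_eight (h : ∀ x g : G, (closure {x, g * x * g⁻¹}).lowerCentralSeries 8 = ⊥)
    (x g : G) : (closure {x, g * x * g⁻¹}).lowerCentralSeries 9 = ⊥ := by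
  rw [Subgroup.lowerCentralSeries_succ, h, commutator_bot_left]

end Pool.Agent.Lib.MP_3b0e0c_al.V
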