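import Pool.Agent.Lib.MP_3b0e0c_al.U.Ten

/-! In a group of exponent eight and class at most nine, `⟨y, x ^ 2 y x ^ (-2)⟩` has class at most
seven. -/

namespace Pool.Agent.Lib.MP_3b0e0c_al.V

open Subgroup
open scoped commutatorElement

lemma core {A : Type*} [AddCommGroup A] (σ τ : A →+ A) {a1 a2 a3 a4 a5 k : A}
    (h8 : ∀ a : A, (8 : ℤ) • a = 0) (s1 : σ a1 = -a2 + a1) (s2 : σ a2 = -a3 + a2)
    (s3 : σ a3 = -a4 + a3) (s4 : σ a4 = -a5 + a4) (s5 : σ a5 = a5) (sk : σ k = k)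
    (t1 : τ a1 = k + a1) (t2 : τ a2 = a2) (t3 : τ a3 = a3) (t4 : τ a4 = a4) (t5 : τ a5 = a5)
    (tk : τ k = k) (b : ℕ → A) (b0 : b 0 = 0) (hb : ∀ i, b (i + 1) = σ (b i) + -a1)
    (hX : τ (b 1 + τ (b 2 + τ (b 3 + τ (b 4 + τ (b 5 + τ (b 6 + τ (b 7))))))) = 0) :
    a5 + a5 = 0 := by
  have b1 : b 1 = -a1 := by rw [hb, b0, map_zero, zero_add]
  have b2 : b 2 = (-2 : ℤ) • a1 + a2 := by
    simp only [hb 1, b1, map_neg, s1]; module
  have b3 : b 3 = (-3 : ℤ) • a1 + (3 : ℤ) • a2 + -a3 := by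
    simp only [hb 2, b2, map_add, map_zsmul, s1, s2]; module
  have b4 : b 4 = (-4 : ℤ) • a1 + (6 : ℤ) • a2 + (-4 : ℤ) • a3 + a4 := by
    simp only [hb 3, b3, map_add, map_neg, map_zsmul, s1, s2, s3]; module
  have b5 : b 5 = (-5 : ℤ) • a1 + (10 : ℤ) • a2 + (-10 : ℤ) • a3 + (5 : ℤ) • a4 + -a5 := by
    simp only [hb 4, b4, map_add, map_zsmul, s1, s2, s3, s4]; module
  have b6 : b 6 = (-6 : ℤ) • a1 + (15 : ℤ) • a2 + (-20 : ℤ) • a3 + (15 : ℤ) • a4 +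
      (-6 : ℤ) • a5 := by
    simp only [hb 5, b5, map_add, map_neg, map_zsmul, s1, s2, s3, s4, s5]; module
  have b7 : b 7 = (-7 : ℤ) • a1 + (21 : ℤ) • a2 + (-35 : ℤ) • a3 + (35 : ℤ) • a4 +
      (-21 : ℤ) • a5 := by
    simp only [hb 6, b6, map_add, map_zsmul, s1, s2, s3, s4, s5]; module
  have e0 : (-28 : ℤ) • a1 + (56 : ℤ) • a2 + (-70 : ℤ) • a3 + (56 : ℤ) • a4 + (-28 : ℤ) • a5 +
      (-140 : ℤ) • k = 0 := by
    rw [← hX]
    simp only [b1, b2, b3, b4, b5, b6, b7, map_add, map_neg, map_zsmul, t1, t2, t3, t4, t5, tk]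
    module
  have e1 := congrArg σ e0
  have e2 := congrArg σ e1
  simp only [map_add, map_neg, map_zsmul, map_zero, s1, s2, s3, s4, s5, sk] at e1 e2
  linear_combination (norm := module) e2 - (2 : ℤ) • e1 + (3 : ℤ) • e0 + (7 : ℤ) • h8 a1 -
    (14 : ℤ) • h8 a2 + (21 : ℤ) • h8 a3 - (21 : ℤ) • h8 a4 + (16 : ℤ) • h8 a5 + (35 : ℤ) • h8 k

variable {K : Type*} [Group K]

lemma triv (h9 : Γ K 9 = ⊥) {i j : ℕ} {u v : K} (hu : u ∈ Γ K i) (hv : v ∈ Γ K j)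
    (h : 9 ≤ i + j + 1) : v * u * v⁻¹ = u := by
  have := comm_mem hu hv h
  rw [h9, mem_bot, commutatorElement_eq_one_iff_commute] at this
  exact U.cf this

open scoped IsMulCommutative in
lemma engel (h9 : Γ K 9 = ⊥) (h8 : ∀ u : K, u ^ 8 = 1) {n : K} (y : K) (hn : n ∈ Γ K 3) :
    ⁅⁅⁅⁅⁅n, y⁆, y⁆, y⁆, y⁆, y⁆ ^ 2 = 1 := by
  have : IsMulCommutative (Γ K 4) := ⟨⟨fun u v => Subtype.ext
    (mul_inv_eq_iff_eq_mul.1 (triv h9 v.2 u.2 le_rfl))⟩⟩
  have hy := mem_zero y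
  have m1 := comm_mem hn hy le_rfl
  have m2 := comm_mem m1 hy le_rfl
  have m3 := comm_mem m2 hy le_rfl
  have m4 := comm_mem m3 hy le_rfl
  have m5 := comm_mem m4 hy le_rfl
  have mk := comm_mem hn m1 le_rfl
  let c : K → Additive (Γ K 4) →+ Additive (Γ K 4) := fun g =>
    MonoidHom.toAdditive (MulAut.conjNormal g).toMonoidHom
  let e : ∀ {i : ℕ} {u : K}, u ∈ Γ K (i + 4) → Additive (Γ K 4) := fun h =>
    .ofMul ⟨_, gam_mono (Nat.le_add_left _ _) h⟩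
  have ext : ∀ {p q : Additive (Γ K 4)}, (p.toMul : K) = q.toMul → p = q := fun h =>
    Additive.toMul.injective (Subtype.ext h)
  have st : ∀ p : K, y * p * y⁻¹ = ⁅p, y⁆⁻¹ * p := fun p => by
    rw [commutatorElement_def]; group
  have mb : ∀ i : ℕ, y ^ i * n * (y ^ i)⁻¹ * n⁻¹ ∈ Γ K 4 := fun i =>
    comm_mem (mem_zero _) hn le_rfl
  have := core (c y) (c n) (a1 := e (i := 0) m1) (a2 := e (i := 1) m2) (a3 := e (i := 2) m3)
    (a4 := e (i := 3) m4) (a5 := e (i := 4) m5) (k := e (i := 4) mk)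
    (fun a => ext ((zpow_natCast _ 8).trans (h8 _))) (ext (st _)) (ext (st _)) (ext (st _))
    (ext (st _)) (ext (triv h9 m5 hy le_rfl)) (ext (triv h9 mk hy le_rfl))
    (ext (show n * ⁅n, y⁆ * n⁻¹ = ⁅n, ⁅n, y⁆⁆ * ⁅n, y⁆ by rw [commutatorElement_def n ⁅n, y⁆]; group))
    (ext (triv h9 m2 hn le_rfl)) (ext (triv h9 m3 hn (by omega))) (ext (triv h9 m4 hn (by omega)))
    (ext (triv h9 m5 hn (by omega))) (ext (triv h9 mk hn (by omega)))
    (fun i => .ofMul ⟨_, mb i⟩) (ext (show y ^ 0 * n * (y ^ 0)⁻¹ * n⁻¹ = 1 by simp))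
    (fun i => ext (show _ =
      y * (y ^ i * n * (y ^ i)⁻¹ * n⁻¹) * y⁻¹ * ⁅n, y⁆⁻¹ by
        simp only [toMul_ofMul, commutatorElement_def]; group))
    (ext (show n * (y ^ 1 * n * (y ^ 1)⁻¹ * n⁻¹ * (n * (y ^ 2 * n * (y ^ 2)⁻¹ * n⁻¹ *
      (n * (y ^ 3 * n * (y ^ 3)⁻¹ * n⁻¹ * (n * (y ^ 4 * n * (y ^ 4)⁻¹ * n⁻¹ *
      (n * (y ^ 5 * n * (y ^ 5)⁻¹ * n⁻¹ * (n * (y ^ 6 * n * (y ^ 6)⁻¹ * n⁻¹ *
      (n * (y ^ 7 * n * (y ^ 7)⁻¹ * n⁻¹) * n⁻¹)) * n⁻¹)) * n⁻¹)) * n⁻¹)) * n⁻¹)) * n⁻¹)) * n⁻¹ = 1 by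
        calc _ = (n * y) ^ 8 * (y ^ 8)⁻¹ * (n ^ 8)⁻¹ := by
              simp only [pow_succ, pow_zero, one_mul, mul_inv_rev, mul_assoc, inv_mul_cancel_left,
                mul_inv_cancel_left]
          _ = 1 := by simp [h8]))
  rw [pow_two]
  exact congrArg (fun p : Additive (Γ K 4) => (p.toMul : K)) this

/-- The substitution `a ↦ [a ^ 2, b]`, `b ↦ b`. -/
def ph : F →* F := pi2 ⁅FreeGroup.of false ^ 2, .of true⁆ (.of true)

lemma ph_f : ph (.of false) = ⁅FreeGroup.of false ^ 2, .of true⁆ := by simp [ph, pi2]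

lemma ph_t : ph (.of true) = .of true := by simp [ph, pi2]

lemma wt : ∀ (k : ℕ) (w : W), w.length = k + 1 → ph (LR w) ∈ Γ F (k + w.count false)
  | 0, [false], _ => by rw [LR, ph_f]; exact comm_mem (mem_zero _) (mem_zero _) le_rfl
  | 0, [true], _ => mem_zero _
  | k + 1, x :: r, h => by
    have h' : r.length = k + 1 := by simpa using h
    rw [LR_cons x h', map_commutatorElement]
    cases x
    · rw [ph_f]
      exact comm_mem (wt k r h') (comm_mem (mem_zero _) (mem_zero _) le_rfl) (by simp; omega)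
    · exact comm_mem (wt k r h') (mem_zero _) (by simp; omega)

lemma up0 (n : ℕ) {v : F} (hv : v ∈ Γ F n) : ph v ∈ Γ F n := by
  have := mem_map_of_mem ph hv
  rw [Subgroup.map_lowerCentralSeries] at this
  exact lowerCentralSeries_mono n le_top this

lemma up (n : ℕ) : ∀ v ∈ Γ F (n + 1), ph v ∈ Γ F (n + 2) := by
  induction n with
  | zero =>
    obtain ⟨A, _, f, hf, h0, -⟩ := exists_univ 1 (Γ F 2) le_rfl
    refine fun v hv => (h0 _ (up0 1 hv)).1 (van1 A (fun u => f (ph u)) ⟨fun u hu w hw => ?_,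
      fun u hu => hf.kill _ (up0 2 hu)⟩ (fun w hw => ?_) v hv)
    · rw [map_mul, hf.add _ (up0 1 hu) _ (up0 1 hw)]
    · rw [List.mem_singleton.1 hw]
      exact hf.kill _ (wt 1 [true, false] rfl)
  | succ n ih =>
    change ⁅Γ F (n + 1), ⊤⁆ ≤ (Γ F (n + 3)).comap ph
    rw [commutator_le]
    intro p hp q _
    rw [mem_comap, map_commutatorElement]
    exact comm_mem (ih p hp) (mem_zero _) le_rfl

lemma seven (h9 : Γ K 9 = ⊥) (h8 : ∀ u : K, u ^ 8 = 1) (x y : K) :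
    (closure {y, x ^ 2 * y * (x ^ 2)⁻¹}).lowerCentralSeries 7 = ⊥ := by
  have hM : Γ F 9 ≤ (pi2 x y).ker := by
    rw [← Subgroup.map_eq_bot_iff, pi2_map, ← le_bot_iff, ← h9]
    exact lowerCentralSeries_mono 9 le_top
  obtain ⟨A, _, f, hf, h0, -⟩ := exists_univ 8 _ hM
  have key : ∀ v ∈ Γ F 7, f (ph v) = 0 := by
    refine van7 A (fun u => f (ph u)) ⟨fun u hu w hw => ?_, fun u hu => hf.kill _ (up 7 _ hu)⟩
      fun w hw => ?_
    · rw [map_mul, hf.add _ (up 6 _ hu) _ (up 6 _ hw)]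
    · have h1 : ∀ w ∈ bs7, w.length = 8 ∧ (2 ≤ w.count false ∨
          w = [true, true, true, true, true, true, true, false]) := by decide +kernel
      obtain ⟨h2, h3 | rfl⟩ := h1 w hw
      · exact hf.kill _ (gam_mono (by omega) (wt 7 w h2))
      · have h4 := hf.lc (List.replicate 8 true) 0 rfl
        have h5 : lc (.of false) (List.replicate 8 true) ∈ Γ F 8 :=
          LR_mem 8 [true, true, true, true, true, true, true, true, false] rfl
        have h6 := h4.pow (mem_zero (.of false)) 2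
        rw [← hf.pow h5, (h0 _ (pow_mem h5 2)).2] at h6
        · simp only [LR, map_commutatorElement, ph_f, ph_t]
          exact h6
        · have := engel h9 h8 y (comm_mem (comm_mem (comm_mem (mem_zero x) (mem_zero y) le_rfl)
            (mem_zero y) le_rfl) (mem_zero y) le_rfl)
          simpa [lc, pi2] using this
  have e : closure {y, x ^ 2 * y * (x ^ 2)⁻¹} ≤ closure {⁅x ^ 2, y⁆, y} := by
    have hy : y ∈ closure {⁅x ^ 2, y⁆, y} := subset_closure (by simp)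
    rw [closure_le]
    rintro _ (rfl | rfl)
    · exact hy
    · rw [show x ^ 2 * y * (x ^ 2)⁻¹ = ⁅x ^ 2, y⁆ * y by rw [commutatorElement_def]; group]
      exact mul_mem (subset_closure (by simp)) hy
  refine le_bot_iff.1 (((lowerCentralSeries_mono 7 e).trans (pi2_map _ _ 7).ge).trans ?_)
  rintro _ ⟨v, hv, rfl⟩
  have e2 : pi2 ⁅x ^ 2, y⁆ y = (pi2 x y).comp ph := by
    ext b
    cases b <;> simp [ph, pi2]
  rw [e2]
  exact (h0 _ (up 6 _ hv)).1 (key v hv)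

end Pool.Agent.Lib.MP_3b0e0c_al.V
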